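import Pool.Agent.NRP.All

set_option autoImplicit false

/-!
# MP_c0d11e_nt: AlmostAllShifts

The asymptotic formula of Hardy and Littlewood for the triples `n, n + s, n + h² + h`, `s = h` or `s = h²`,
for almost all `h ≤ √X`.  The member `h = 2` gives the two patterns of Q1.
-/

namespace Pool.Agent.Results.MP_c0d11e_nt.AlmostAllShifts

open Finset Filter ArithmeticFunction Pool.Agent

/-- number of residue classes modulo `p` among `0, h, h² + h` (the same number for `0, h², h² + h`) -/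
def nu (h p : ℕ) : ℕ :=
  (({0, (h : ℤ), (h : ℤ) ^ 2 + h} : Finset ℤ).image (fun x => x % (p : ℤ))).card

/-- the singular series -/
noncomputable def S (h : ℕ) : ℝ :=
  ∏' p : Nat.Primes, (1 - (nu h p : ℝ) / (p : ℕ)) / (1 - 1 / ((p : ℕ) : ℝ)) ^ 3

/-- For all `A` and `ε` and all large `X`, with at most `√X / log^A X` exceptions the integers
`1 ≤ h ≤ √X` have the property: for `s = h` and for `s = h²` the sum of `Λ(n) Λ(n+s) Λ(n+h²+h)` over `n ≤ X` is
`S(h) X` up to `X / log^A X`, and, if `h` is even and not `1` modulo `3`, the number of `n ≤ X` with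
`n, n+s, n+h²+h` prime is `S(h) X / log³ X` up to a factor `1 ± ε`.  The product `S(h)` converges, it is
`0` or bounded from below, and `S(2)` is the constant `D` of the problem. -/
theorem result :
    (∀ (A : ℕ) (ε : ℝ), 0 < ε → ∀ᶠ X : ℕ in atTop, ∃ E : Finset ℕ,
      (E.card : ℝ) ≤ Real.sqrt X / Real.log X ^ A ∧
      ∀ h : ℕ, 1 ≤ h → h ≤ Nat.sqrt X → h ∉ E → ∀ s : ℕ, (s = h ∨ s = h ^ 2) →
        |∑ n ∈ Icc 1 X, vonMangoldt n * vonMangoldt (n + s) * vonMangoldt (n + h ^ 2 + h) -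
          S h * X| ≤ X / Real.log X ^ A ∧
        (h % 2 = 0 → h % 3 ≠ 1 →
          |((((Icc 1 X).filter (fun n => n.Prime ∧ (n + s).Prime ∧
            (n + h ^ 2 + h).Prime)).card : ℕ) : ℝ) - S h * X / Real.log X ^ 3| ≤
            ε * (S h * X / Real.log X ^ 3))) ∧
    (∀ h : ℕ, 1 ≤ h → Multipliable (fun p : Nat.Primes =>
      (1 - (nu h p : ℝ) / (p : ℕ)) / (1 - 1 / ((p : ℕ) : ℝ)) ^ 3)) ∧
    (∀ h : ℕ, 1 ≤ h → ¬ (h % 2 = 0 ∧ h % 3 ≠ 1) → S h = 0) ∧
    (∃ c : ℝ, 0 < c ∧ ∀ h : ℕ, 1 ≤ h → h % 2 = 0 → h % 3 ≠ 1 → c ≤ S h) ∧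
    Tendsto (fun N : ℕ => (9 / 2 : ℝ) *
      ∏ p ∈ (Ioo 3 N).filter Nat.Prime, ((p : ℝ) ^ 2 * (p - 3) / ((p : ℝ) - 1) ^ 3)) atTop
      (nhds (S 2)) := by
  obtain ⟨s1, -, -, -, s5, s6⟩ := NRP.thm_Sing
  refine ⟨?_, s1, s5, s6, NRP.asm_cd⟩
  intro A ε hε
  filter_upwards [NRP.asm_ca (A + 1), NRP.asm_cb (A + 1) ε hε,
    SI.var_log_large 2] with X h1 h2 hlog
  set E1 : Finset ℕ := (Icc 1 (Nat.sqrt X)).filter
    (fun h => X / Real.log X ^ (A + 1) < |NRP.T3a X h - NRP.SG h * X| ∨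
      X / Real.log X ^ (A + 1) < |NRP.T3b X h - NRP.SG h * X|) with hE1
  set E2 : Finset ℕ := (Icc 1 (Nat.sqrt X)).filter (fun h => h % 2 = 0 ∧ h % 3 ≠ 1 ∧
    (ε * (NRP.SG h * X / Real.log X ^ 3) < |NRP.Pa X h - NRP.SG h * X / Real.log X ^ 3| ∨
      ε * (NRP.SG h * X / Real.log X ^ 3) < |NRP.Pb X h - NRP.SG h * X / Real.log X ^ 3|)) with hE2
  have hpos : 0 < Real.log X := by linarith
  have hpow : 0 < Real.log X ^ A := by positivity
  refine ⟨E1 ∪ E2, ?_, ?_⟩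
  · have hc : ((E1 ∪ E2).card : ℝ) ≤ E1.card + E2.card := by exact_mod_cast card_union_le _ _
    have hs : 2 * (Real.sqrt X / Real.log X ^ (A + 1)) ≤ Real.sqrt X / Real.log X ^ A := by
      rw [pow_succ, ← div_div]
      rw [mul_div_assoc', div_le_iff₀ hpos]
      have : 0 ≤ Real.sqrt X / Real.log X ^ A := by positivity
      nlinarith
    linarith
  · intro h hh1 hh2 hhE s hs
    have hI : h ∈ Icc 1 (Nat.sqrt X) := mem_Icc.2 ⟨hh1, hh2⟩
    have n1 : h ∉ E1 := fun hx => hhE (mem_union_left _ hx)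
    have n2 : h ∉ E2 := fun hx => hhE (mem_union_right _ hx)
    rw [hE1, mem_filter] at n1
    rw [hE2, mem_filter] at n2
    have n1' : |NRP.T3a X h - NRP.SG h * X| ≤ X / Real.log X ^ (A + 1) ∧
        |NRP.T3b X h - NRP.SG h * X| ≤ X / Real.log X ^ (A + 1) := by
      constructor
      · by_contra hc
        exact n1 ⟨hI, Or.inl (not_le.1 hc)⟩
      · by_contra hc
        exact n1 ⟨hI, Or.inr (not_le.1 hc)⟩
    have hle : (X : ℝ) / Real.log X ^ (A + 1) ≤ X / Real.log X ^ A := by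
      have h1l : 1 ≤ Real.log X := by linarith
      exact div_le_div_of_nonneg_left (Nat.cast_nonneg _) hpow
        (pow_le_pow_right₀ h1l (Nat.le_succ A))
    have n2' : h % 2 = 0 → h % 3 ≠ 1 →
        |NRP.Pa X h - NRP.SG h * X / Real.log X ^ 3| ≤ ε * (NRP.SG h * X / Real.log X ^ 3) ∧
        |NRP.Pb X h - NRP.SG h * X / Real.log X ^ 3| ≤ ε * (NRP.SG h * X / Real.log X ^ 3) := by
      intro e1 e2
      constructor
      · by_contra hc
        exact n2 ⟨hI, e1, e2, Or.inl (not_le.1 hc)⟩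
      · by_contra hc
        exact n2 ⟨hI, e1, e2, Or.inr (not_le.1 hc)⟩
    rcases hs with rfl | rfl
    · exact ⟨n1'.1.trans hle, fun e1 e2 => (n2' e1 e2).1⟩
    · exact ⟨n1'.2.trans hle, fun e1 e2 => (n2' e1 e2).2⟩

end Pool.Agent.Results.MP_c0d11e_nt.AlmostAllShifts
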