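import Pool.Agent.PU.Out34

set_option autoImplicit false

/-!
# MP_c0d11e_nt: PrimeThreeFour

A prime, a `P_3` and a `P_4` in prescribed places of an admissible triple.
-/

namespace Pool.Agent.Results.MP_c0d11e_nt.PrimeThreeFour

theorem result (h : Fin 3 → ℕ) (hinj : Function.Injective h)
    (hadm : ∀ p : ℕ, p.Prime → ∃ a : ℕ, ∀ i, ¬ p ∣ a + h i) (e : Equiv.Perm (Fin 3)) :
    ∃ c : ℝ, 0 < c ∧ ∀ᶠ x : ℕ in Filter.atTop,
      c * x / Real.log x ^ 3 ≤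
        ({n : ℕ | n ≤ x ∧
          ((n + h (e 0)).Prime ∧
            ArithmeticFunction.cardFactors (n + h (e 1)) ≤ 3 ∧
            ArithmeticFunction.cardFactors (n + h (e 2)) ≤ 4) ∧
          ∀ i, ∀ p : ℕ, p.Prime → p ∣ n + h i → (x : ℝ) ^ (1 / 1000 : ℝ) < p}.ncard : ℝ) :=
  Pool.Agent.PU.e34 h hinj hadm e

end Pool.Agent.Results.MP_c0d11e_nt.PrimeThreeFour
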