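import Pool.Agent.PT.FinB
import Pool.Agent.PT.Out

set_option autoImplicit false

/-!
# MP_c0d11e_nt: TwoTwoThree

Two of the three members of an admissible triple are `P_2` and the third is `P_3`, in some order.
-/

namespace Pool.Agent.Results.MP_c0d11e_nt.TwoTwoThree

theorem result (h : Fin 3 → ℕ) (hinj : Function.Injective h)
    (hadm : ∀ p : ℕ, p.Prime → ∃ a : ℕ, ∀ i, ¬ p ∣ a + h i) :
    ∃ c : ℝ, 0 < c ∧ ∀ᶠ x : ℕ in Filter.atTop,
      c * x / Real.log x ^ 3 ≤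
        ({n : ℕ | n ≤ x ∧
          (∃ e : Equiv.Perm (Fin 3), ArithmeticFunction.cardFactors (n + h (e 0)) ≤ 2 ∧
            ArithmeticFunction.cardFactors (n + h (e 1)) ≤ 2 ∧
            ArithmeticFunction.cardFactors (n + h (e 2)) ≤ 3) ∧
          ∀ i, ∀ p : ℕ, p.Prime → p ∣ n + h i → (x : ℝ) ^ (1 / 1000 : ℝ) < p}.ncard : ℝ) :=
  Pool.Agent.PT.finb_A Pool.Agent.PT.thm_A h hinj hadm

end Pool.Agent.Results.MP_c0d11e_nt.TwoTwoThree
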