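import Mathlib
import Pool.Agent.Helper25.Const
import Pool.Agent.SVB.Main
import Pool.Agent.SVB.TypeAll

set_option autoImplicit false

namespace Pool.Agent.Results.MP_c0d11e_nt.TypeOneWeights

open Finset Filter

/-- Nonnegative functions `θ` of level `R`, that is sums of real functions of periods `q ≤ R`, have
mean value at least `(8 (1 + (log 2 / (2 - log 2)) ^ 3) - ε) D / (log R) ^ 3` times their mean value
over the `n` for which `n (n + u) (n + 6)` has no prime factor up to `R`. -/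
theorem result : ∃ D : ℝ,
    Tendsto (fun K : ℕ => (9 / 2 : ℝ) * ∏ p ∈ (range K).filter (fun p => p.Prime ∧ 3 < p),
      ((p : ℝ) ^ 2 * ((p : ℝ) - 3) / ((p : ℝ) - 1) ^ 3)) atTop (nhds D) ∧
    ∀ u : ℕ, u = 2 ∨ u = 4 → ∀ ε : ℝ, 0 < ε → ∃ R₀ : ℕ, ∀ R : ℕ, R₀ ≤ R →
      ∀ f : ℕ → ℕ → ℝ, (∀ q ∈ Icc 1 R, ∀ n : ℕ, f q (n + q) = f q n) →
      ∀ θ : ℕ → ℝ, (∀ n : ℕ, θ n = ∑ q ∈ Icc 1 R, f q n) →
      (∀ n : ℕ, 0 < n → 0 ≤ θ n) →
      ∃ M A : ℝ, Tendsto (fun x : ℕ => (∑ n ∈ Icc 1 x, θ n) / x) atTop (nhds M) ∧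
        Tendsto (fun x : ℕ => (∑ n ∈ (Icc 1 x).filter
            (fun n => ∀ p ∈ Icc 1 R, p.Prime → ¬ p ∣ n * (n + u) * (n + 6)), θ n) /
          (((Icc 1 x).filter
            (fun n => ∀ p ∈ Icc 1 R, p.Prime → ¬ p ∣ n * (n + u) * (n + 6))).card : ℝ))
          atTop (nhds A) ∧
        (8 * (1 + (Real.log 2 / (2 - Real.log 2)) ^ 3) - ε) * D / Real.log R ^ 3 * A ≤ M := by
  obtain ⟨D, hD, hD2⟩ := Pool.Agent.Helper25.exists_D
  refine ⟨D, hD, ?_⟩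
  intro u hu ε hε
  obtain ⟨R₀, hR₀⟩ := eventually_atTop.1 (Pool.Agent.SVB.main hu hD (by linarith) hε)
  refine ⟨max R₀ 1, fun R hR f hf θ hθ h0 => ?_⟩
  classical
  obtain ⟨M, A, k1, k2, k3⟩ := Pool.Agent.SVB.typeAll hu (le_of_max_le_right hR)
    (fun lam k0 k1 => hR₀ R (le_of_max_le_left hR) lam k0 k1) f hf θ hθ h0
  refine ⟨M, A, k1, ?_, k3⟩
  have e : ∀ x : ℕ, (Icc 1 x).filter
      (fun n => ∀ p ∈ Icc 1 R, p.Prime → ¬ p ∣ n * (n + u) * (n + 6)) =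
      (Icc 1 x).filter (Pool.Agent.SVB.Sif u R) := fun x => by
    refine Finset.filter_congr fun n _ => ?_
    exact Iff.rfl
  simp only [e]
  exact k2

end Pool.Agent.Results.MP_c0d11e_nt.TypeOneWeights
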